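import Pool.Agent.Y850.FA.T6Stab

/-!
# Six-element vertex sets with 14 edges in `K_4^3`-free 3-graphs: sharp bound and stability

Six vertices of a `K_4^3`-free 3-graph span at most 14 edges. Let `H` be a `K_4^3`-free 3-graph on `n`
vertices and `N` the number of six-element vertex sets which span exactly 14 edges. Then
`5832 N ≤ n ^ 6`, and there is a division `g` of the vertices into three parts such that
`n ^ 3 |H ∆ turan g| ≤ 430080000 (n ^ 6 - 5832 N)`, where `turan g` is Turán's construction: the
triples that meet all three parts, and the triples with two vertices in a part and one in the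
following part. For all divisions the number `N` for `turan g` is the product of the numbers of pairs
in the three parts; so both inequalities are best possible up to the constant `430080000`, and
Turán's construction is the asymptotically unique extremal 3-graph for this problem (in contrast to
Turán's own problem, the maximum number of edges, where many different 3-graphs are conjectured to
be extremal).

Outline: two sum of squares certificates for six-vertex structures, exact on the eight six-vertex
subgraphs of Turán's construction and with a positive slack for all others, found by a semidefinite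
programming solver and made exact; the inequalities for the 3-graphs on six vertices are checked by
the kernel. The distance to Turán's construction is bounded by the number of six-tuples of another
type with the method of `Pool.Agent.TH773.ST`.
-/

set_option autoImplicit false
set_option maxRecDepth 100000
set_option maxHeartbeats 4000000
open Finset
open scoped Classical

namespace Pool.Agent.Results.MP_f1799f_co.FourteenEdgeSextuples

/-- The 3-graph `H` has no four vertices spanning all four triples. -/
def K43Free {n : ℕ} (H : Finset (Finset (Fin n))) : Prop :=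
  ∀ S : Finset (Fin n), S.card = 4 → ∃ s ⊆ S, s.card = 3 ∧ s ∉ H

/-- The number of six-element vertex sets that contain exactly 14 members of `H`. -/
noncomputable def sextuples14 {n : ℕ} (H : Finset (Finset (Fin n))) : ℕ :=
  (((univ : Finset (Fin n)).powersetCard 6).filter fun S =>
    (H.filter fun e => e ⊆ S).card = 14).card

/-- Turán's construction for the division of the vertices into the parts `g = 0`, `g = 1`, `g = 2`:
the triples that meet all three parts, and the triples with two vertices in one part and one vertex
in the following part, where part 0 follows part 2. -/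
def turan {n : ℕ} (g : Fin n → Fin 3) : Finset (Finset (Fin n)) :=
  ((univ : Finset (Fin n)).powersetCard 3).filter fun t =>
    (∀ p, ∃ i ∈ t, g i = p) ∨
      ∃ p, (t.filter fun i => g i = p).card = 2 ∧ (t.filter fun i => g i = p + 1).card = 1

/-- The set of vertices in a part. -/
def part {n : ℕ} (g : Fin n → Fin 3) (p : Fin 3) : Finset (Fin n) := univ.filter fun i => g i = p

open Pool.Agent.H122R2.N6 Pool.Agent.TH773.ST Pool.Agent.TH773.CL

theorem rf14 : ∀ a b c d e f : Fin 3, Rf a b c + Rf a b d + Rf a c d + Rf b c d + Rf a b e +
    Rf a c e + Rf b c e + Rf a d e + Rf b d e + Rf c d e + Rf a b f + Rf a c f + Rf b c f +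
    Rf a d f + Rf b d f + Rf c d f + Rf a e f + Rf b e f + Rf c e f + Rf d e f = 14 ↔
    ∀ p : Fin 3, ((univ : Finset (Fin 6)).filter fun i => ![a, b, c, d, e, f] i = p).card = 2 := by
  decide +kernel

theorem sp14 (h : Fin 6 → Fin 3) : sp6 (fun i j k => Rf (h i) (h j) (h k)) = 14 ↔
    ∀ p : Fin 3, ((univ : Finset (Fin 6)).filter fun i => h i = p).card = 2 := by
  have h1 := rf14 (h 0) (h 1) (h 2) (h 3) (h 4) (h 5)
  have h2 : (![h 0, h 1, h 2, h 3, h 4, h 5] : Fin 6 → Fin 3) = h := by
    funext i; fin_cases i <;> rfl
  rw [h2] at h1
  exact h1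

theorem turan_iff {n : ℕ} (g : Fin n → Fin 3) {S : Finset (Fin n)} (hS : S.card = 6) :
    ((turan g).filter fun e => e ⊆ S).card = 14 ↔ ∀ p, (S.filter fun i => g i = p).card = 2 := by
  obtain ⟨x, hx, rfl⟩ := exists_tuple hS
  have h3 : ∀ e ∈ Pool.Agent.TH773.Turan34.turan g, e.card = 3 := fun e he => turan_card he
  have h1 : ((turan g).filter fun e => e ⊆ univ.image x).card =
      sp6 (fun i j k => Rf (g (x i)) (g (x j)) (g (x k))) := by
    have h2 := span6 h3 hx
    rw [show turan g = Pool.Agent.TH773.Turan34.turan g from rfl, h2]
    exact sp6_congr fun i j k hij hjk => tri_turan (fun e => hij.ne (hx e))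
      (fun e => (hij.trans hjk).ne (hx e)) (fun e => hjk.ne (hx e))
  rw [h1]
  have h4 := sp14 (g ∘ x)
  have h5 : ∀ p, ((univ.image x).filter fun i => g i = p).card =
      ((univ : Finset (Fin 6)).filter fun i => (g ∘ x) i = p).card := by
    intro p
    rw [filter_image, card_image_of_injective _ hx]
    rfl
  simp only [h5]
  exact h4

theorem count_turan {n : ℕ} (g : Fin n → Fin 3) :
    sextuples14 (turan g) = ∏ p, (part g p).card.choose 2 := by
  have e1 : ∏ p, (part g p).card.choose 2 =
      (Fintype.piFinset fun p => (part g p).powersetCard 2).card := by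
    rw [Fintype.card_piFinset]
    exact prod_congr rfl fun p _ => (card_powersetCard _ _).symm
  rw [e1]
  unfold sextuples14
  refine card_bij' (fun S _ p => S.filter fun i => g i = p)
    (fun f _ => univ.biUnion f) ?_ ?_ ?_ ?_
  · intro S hS
    rw [mem_filter, mem_powersetCard] at hS
    rw [Fintype.mem_piFinset]
    intro p
    rw [mem_powersetCard]
    refine ⟨?_, (turan_iff g hS.1.2).mp hS.2 p⟩
    intro i hi
    exact mem_filter.mpr ⟨mem_univ _, (mem_filter.mp hi).2⟩
  · intro f hf
    rw [Fintype.mem_piFinset] at hf
    have hf' : ∀ p, f p ⊆ part g p ∧ (f p).card = 2 := fun p => mem_powersetCard.mp (hf p)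
    have hg : ∀ p, ∀ i ∈ f p, g i = p := fun p i hi => (mem_filter.mp ((hf' p).1 hi)).2
    have hd : ∀ p ∈ (univ : Finset (Fin 3)), ∀ q ∈ (univ : Finset (Fin 3)), p ≠ q →
        Disjoint (f p) (f q) := by
      intro p _ q _ hpq
      rw [disjoint_left]
      intro i hi hi'
      exact hpq ((hg p i hi).symm.trans (hg q i hi'))
    have hc : ((univ : Finset (Fin 3)).biUnion f).card = 6 := by
      rw [card_biUnion hd, sum_congr rfl fun p _ => (hf' p).2]
      rfl
    rw [mem_filter, mem_powersetCard]
    refine ⟨⟨subset_univ _, hc⟩, (turan_iff g hc).mpr fun p => ?_⟩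
    rw [show (((univ : Finset (Fin 3)).biUnion f).filter fun i => g i = p) = f p from ?_]
    · exact (hf' p).2
    · ext i
      rw [mem_filter, mem_biUnion]
      constructor
      · rintro ⟨⟨q, -, hq⟩, hp⟩
        rw [← hp, hg q i hq]
        exact hq
      · intro hi
        exact ⟨⟨p, mem_univ _, hi⟩, hg p i hi⟩
  · intro S hS
    ext i
    simp only [mem_biUnion, mem_univ, true_and, mem_filter]
    constructor
    · rintro ⟨p, hi, -⟩
      exact hi
    · intro hi
      exact ⟨g i, hi, rfl⟩
  · intro f hf
    rw [Fintype.mem_piFinset] at hf
    have hg : ∀ p, ∀ i ∈ f p, g i = p := fun p i hi =>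
      (mem_filter.mp ((mem_powersetCard.mp (hf p)).1 hi)).2
    funext p
    ext i
    simp only [mem_biUnion, mem_univ, true_and, mem_filter]
    constructor
    · rintro ⟨⟨q, hq⟩, hp⟩
      rw [← hp, hg q i hq]
      exact hq
    · intro hi
      exact ⟨⟨p, hi⟩, hg p i hi⟩

/-- Every `K_4^3`-free 3-graph `H` on `n` vertices has at most `n ^ 6 / 5832` six-element vertex sets
which span 14 edges, and it differs from Turán's construction for some division of the vertices in at
most `430080000 (n ^ 6 - 5832 N) / n ^ 3` triples if `N` is their number; Turán's construction is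
`K_4^3`-free and its number of such sets is the product of the numbers of pairs in the parts. -/
theorem result :
    (∀ (n : ℕ) (H : Finset (Finset (Fin n))), (∀ e ∈ H, e.card = 3) → K43Free H →
      5832 * sextuples14 H ≤ n ^ 6 ∧ ∃ g : Fin n → Fin 3,
        (n : ℝ) ^ 3 * ((symmDiff H (turan g)).card : ℝ) ≤
          430080000 * ((n : ℝ) ^ 6 - 5832 * (sextuples14 H : ℝ))) ∧
    (∀ (n : ℕ) (g : Fin n → Fin 3), K43Free (turan g) ∧
      sextuples14 (turan g) = ∏ p, (part g p).card.choose 2) := by
  refine ⟨fun n H h3 hK => ?_, fun n g => ⟨turan_free g, count_turan g⟩⟩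
  obtain ⟨g, hg⟩ := Pool.Agent.Y850.FA.core h3 hK
  have hg2 : n ^ 3 * (symmDiff H (turan g)).card + 2508226560000 * sextuples14 H ≤
      430080000 * n ^ 6 := hg
  constructor
  · omega
  · refine ⟨g, ?_⟩
    have hg3 : (n : ℝ) ^ 3 * ((symmDiff H (turan g)).card : ℝ) + 2508226560000 *
        (sextuples14 H : ℝ) ≤ 430080000 * (n : ℝ) ^ 6 := by exact_mod_cast hg2
    linarith

end Pool.Agent.Results.MP_f1799f_co.FourteenEdgeSextuples
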