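import Pool.Agent.Y47.BU.OCnt
import Pool.Agent.Y47.BU.ODat
import Pool.Agent.Y47.BU.OX8
import Pool.Agent.Y47.BU.OX10
import Pool.Agent.Y47.BU.OX10B
import Pool.Agent.Y47.BU.OFin

/-!
# Turán's `(3,4)`-problem: infinite families of order-size pairs

Turán's conjecture says that a `K_4^3`-free 3-graph on `n` vertices has at most
`(5/9 + o(1)) C(n,3)` edges. Let `(k, m)` be one of the pairs

* `(k, 2k-5)`, `(k, 2k-6)` with `k ≥ 5`; `(k, 3k-12)` with `k ≥ 6`;
  `(k, 4k-14)`, `(k, 5k-18)` with `k ≥ 7`;
* or one of eighteen more pairs with `8 ≤ k ≤ 10` (the list `more`).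

Here the conjecture is proved for `K_4^3`-free 3-graphs in which (almost) no `k` vertices span
exactly `m` edges, together with stability: if such a 3-graph has nearly `(5/9) C(n,3)` edges,
then it is close to Turán's construction `turan g` for some division `g` of the vertices into three
parts. In Turán's construction no `k` vertices span exactly `m` edges. So `K_4^3`-free 3-graphs with
edge density more than `5/9` (if there are any) contain, for every `k ≥ 7`, a positive proportion of
sets of `k` vertices with exactly `m` edges for five values of `m` and more.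

Outline: suppose that a 3-graph with six vertices, one of the two whose number of induced copies
bounds, together with the number of missing edges, the distance to Turán's construction, has
positive density. Then there are large blow-ups of it, and (Ramsey's theorem for the classes) large
blow-ups such that the edges with two vertices in the class `i` and one in the class `j` are all
present or all absent, for all `i ≠ j`, and every class is independent. A decision tree over the 30
bits `(i, j)` shows that there is a `K_4^3`, or a class `A` and a few vertices outside `A`, such that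
these and `k - s` vertices of `A` span exactly `u k - b` edges for every `k`.
-/

set_option autoImplicit false
set_option maxRecDepth 100000
set_option maxHeartbeats 4000000
open Finset
open scoped Classical

namespace Pool.Agent.Results.MP_f1799f_co.OrderSizeLines
open Pool.Agent.TH773.Turan34
open Pool.Agent.Y47.BU

/-- Five infinite families of pairs: `m = 2k-5`, `m = 2k-6` (`k ≥ 5`), `m = 3k-12` (`k ≥ 6`),
`m = 4k-14`, `m = 5k-18` (`k ≥ 7`). -/
def Line (k m : ℕ) : Prop :=
  (5 ≤ k ∧ (m + 5 = 2 * k ∨ m + 6 = 2 * k)) ∨ (6 ≤ k ∧ m + 12 = 3 * k) ∨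
    (7 ≤ k ∧ (m + 14 = 4 * k ∨ m + 18 = 5 * k))

/-- Eighteen more pairs. -/
def more : List (ℕ × ℕ) := [(8, 20), (8, 26), (8, 27), (8, 28), (9, 24), (9, 25), (9, 34),
  (9, 36), (9, 37), (9, 39), (10, 30), (10, 33), (10, 35), (10, 40), (10, 41),
  (10, 45), (10, 48), (10, 53)]

/-- Let `(k, m)` be in one of the five families, or one of the eighteen pairs. For every `ε > 0` there
are `δ > 0` and `n0` such that every `K_4^3`-free 3-graph `H` on `n ≥ n0` vertices, in which at most
`δ nᵏ` sets of `k` vertices span exactly `m` edges, has at most `(5/9 + ε) C(n,3)` edges, and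
`|H ∆ turan g| ≤ 1161216000 ((5/54) n³ - |H|) + ε n³` for some division `g` of the vertices. In
Turán's construction there are no such sets. -/
theorem result :
    (∀ k m : ℕ, (Line k m ∨ (k, m) ∈ more) → ∀ ε : ℝ, 0 < ε → ∃ δ : ℝ, 0 < δ ∧
      ∃ n0 : ℕ, ∀ n, n0 ≤ n → ∀ H : Finset (Finset (Fin n)), (∀ e ∈ H, e.card = 3) → K43Free H →
      (spans H k m : ℝ) ≤ δ * (n : ℝ) ^ k →
        (H.card : ℝ) ≤ (5 / 9 + ε) * (n.choose 3 : ℝ) ∧
        ∃ g : Fin n → Fin 3, ((symmDiff H (turan g)).card : ℝ) ≤
          1161216000 * (5 / 54 * (n : ℝ) ^ 3 - H.card) + ε * (n : ℝ) ^ 3) ∧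
    (∀ (n : ℕ) (g : Fin n → Fin 3), K43Free (turan g) ∧
      ∀ k m : ℕ, (Line k m ∨ (k, m) ∈ more) → spans (turan g) k m = 0) := by
  have key : ∀ k m : ℕ, 0 < k → (∀ w ∈ Pool.Agent.TH773.ST.famM 2, RamP k m w) →
      ∀ ε : ℝ, 0 < ε → ∃ δ : ℝ, 0 < δ ∧ ∃ n0 : ℕ, ∀ n, n0 ≤ n →
      ∀ H : Finset (Finset (Fin n)), (∀ e ∈ H, e.card = 3) → K43Free H →
      (spans H k m : ℝ) ≤ δ * (n : ℝ) ^ k →
        (H.card : ℝ) ≤ (5 / 9 + ε) * (n.choose 3 : ℝ) ∧
        ∃ g : Fin n → Fin 3, ((symmDiff H (turan g)).card : ℝ) ≤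
          1161216000 * (5 / 54 * (n : ℝ) ^ 3 - H.card) + ε * (n : ℝ) ^ 3 := by
    intro k m hk hN ε hε
    obtain ⟨K, n0, h⟩ := mainO 2 hN hε
    have hk0 : 0 < k ^ k := Nat.pow_pos hk
    have hk1 : (0 : ℝ) < ((k ^ k : ℕ) : ℝ) := by exact_mod_cast hk0
    refine ⟨1 / (((k ^ k : ℕ) : ℝ) * ((K : ℝ) + 1)), by positivity, n0, fun n hn H h3 hK hP => ?_⟩
    exact h n hn H h3 hK (Pool.Agent.TH773.CL.nat_of_real rfl hk0 hP (gS_le h3 m))
  refine ⟨?_, ?_⟩
  · rintro k m (h | h)
    · rcases h with ⟨h5, h | h⟩ | ⟨h6, h⟩ | ⟨h7, h | h⟩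
      · obtain rfl : m = 2 * k - 5 := by omega
        exact key k _ (by omega) fun w hw => by
          obtain ⟨tr, ht⟩ := okOA w hw
          exact ramS (by omega) tr ht
      · obtain rfl : m = 2 * k - 6 := by omega
        exact key k _ (by omega) fun w hw => by
          obtain ⟨tr, ht⟩ := okOB w hw
          exact ramS (by omega) tr ht
      · obtain rfl : m = 3 * k - 12 := by omega
        exact key k _ (by omega) fun w hw => by
          obtain ⟨tr, ht⟩ := okOC w hw
          exact ramS (by omega) tr ht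
      · obtain rfl : m = 4 * k - 14 := by omega
        exact key k _ (by omega) fun w hw => by
          obtain ⟨tr, ht⟩ := okOD w hw
          exact ramS (by omega) tr ht
      · obtain rfl : m = 5 * k - 18 := by omega
        exact key k _ (by omega) fun w hw => by
          obtain ⟨tr, ht⟩ := okOF w hw
          exact ramS (by omega) tr ht
    · have go : ∀ {k m : ℕ}, 0 < k → (∀ w ∈ Pool.Agent.TH773.ST.famM 2, ∃ tr,
          ckX k m w [] tr = true) → ∀ w ∈ Pool.Agent.TH773.ST.famM 2, RamP k m w :=
        fun _ ho w hw => by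
          obtain ⟨tr, ht⟩ := ho w hw
          exact ramX tr ht
      simp only [more, List.mem_cons, List.not_mem_nil, or_false, Prod.mk.injEq] at h
      rcases h with ⟨rfl, rfl⟩ | ⟨rfl, rfl⟩ | ⟨rfl, rfl⟩ | ⟨rfl, rfl⟩ | ⟨rfl, rfl⟩ | ⟨rfl, rfl⟩ |
        ⟨rfl, rfl⟩ | ⟨rfl, rfl⟩ | ⟨rfl, rfl⟩ | ⟨rfl, rfl⟩ | ⟨rfl, rfl⟩ | ⟨rfl, rfl⟩ | ⟨rfl, rfl⟩ |
        ⟨rfl, rfl⟩ | ⟨rfl, rfl⟩ | ⟨rfl, rfl⟩ | ⟨rfl, rfl⟩ | ⟨rfl, rfl⟩
      · exact key _ _ (by norm_num) (go (by norm_num) okX8_20)
      · exact key _ _ (by norm_num) (go (by norm_num) okX8_26)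
      · exact key _ _ (by norm_num) (go (by norm_num) okX8_27)
      · exact key _ _ (by norm_num) (go (by norm_num) okX8_28)
      · exact key _ _ (by norm_num) (go (by norm_num) okX9_24)
      · exact key _ _ (by norm_num) (go (by norm_num) okX9_25)
      · exact key _ _ (by norm_num) (go (by norm_num) okX9_34)
      · exact key _ _ (by norm_num) (go (by norm_num) okX9_36)
      · exact key _ _ (by norm_num) (go (by norm_num) okX9_37)
      · exact key _ _ (by norm_num) (go (by norm_num) okX9_39)
      · exact key _ _ (by norm_num) (go (by norm_num) okX10_30)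
      · exact key _ _ (by norm_num) (go (by norm_num) okX10_33)
      · exact key _ _ (by norm_num) (go (by norm_num) okX10_35)
      · exact key _ _ (by norm_num) (go (by norm_num) okX10_40)
      · exact key _ _ (by norm_num) (go (by norm_num) okX10_41)
      · exact key _ _ (by norm_num) (go (by norm_num) okX10_45)
      · exact key _ _ (by norm_num) (go (by norm_num) okX10_48)
      · exact key _ _ (by norm_num) (go (by norm_num) okX10_53)
  · intro n g
    refine ⟨Pool.Agent.TH773.ST.turan_free g, ?_⟩
    rintro k m (h | h)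
    · exact spans_T (fun x y z hk => line_F2 (k := k) (m := m) h x y z hk) g
    · exact spans_T (fun x y z hk => more_F2 (p := (k, m)) h x y z hk) g

end Pool.Agent.Results.MP_f1799f_co.OrderSizeLines
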