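import Pool.Agent.Y47.BU.Ind
import Pool.Agent.Y47.BU.Dat
import Pool.Agent.Y47.BU.Dat2
import Pool.Agent.Y47.BU.UDat
import Pool.Agent.Y47.BU.UTab

/-!
# Turán's `(3,4)`-problem: three unavoidable tripartite 3-graphs, and cones

Turán's conjecture says that a `K_4^3`-free 3-graph on `n` vertices has at most
`(5/9 + o(1)) C(n,3)` edges. For `t ≥ 2` let `U_0(t)` be the complete tripartite 3-graph with classes
`A`, `B`, `C` of `t` vertices, `U_1(t)` the same with all triples `AAB` added, and `U_2(t)` with all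
triples `AAB` and `BBC` added (`piece 0 t`, `piece 1 t`, `piece 2 t`). In a `K_4^3`-free 3-graph every
homogeneous tripartite piece with all transversals is one of these, or it has the triples `AAB`,
`BBC`, `CCA`, or `AAC`, `BBC`, and only the last two types occur in Turán's construction.

It is proved that `K_4^3`-free 3-graphs with few induced copies of `U_0(t)`, `U_1(t)` and `U_2(t)`
satisfy Turán's bound and stability, for every `t`. So a counterexample to the conjecture contains a
positive proportion of induced copies of `U_0(t)`, `U_1(t)` or `U_2(t)`, for every `t`.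

Consequences and related results: few induced copies of the cones over `K_{s,t}` and over
`K_s + (t isolated vertices)` with all edges between (the split graph) are enough, for all `s`, `t`
(the cone over a graph `G` consists of the triples of an apex and an edge of `G`); and one excluded
induced 3-graph is enough if it is the cone over the book `K_{1,1,t}` (the split graph with `s = 2`),
for any `t`, or `U_2(2)`. Turán's construction contains none of these 3-graphs (`s, t ≥ 2`).

Outline: for a list of six-vertex 3-graphs there is a sum of squares certificate which bounds the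
distance to Turán's construction by the number of missing edges and the number of induced copies of
the members of the list. If a member `X` of the list has positive density, then there are many large
homogeneous blow-ups of `X` (Erdős, Ramsey), and a decision tree shows that each of them contains
four vertices with four edges or an induced copy of one of the excluded 3-graphs.
-/

set_option autoImplicit false
set_option maxRecDepth 100000
set_option maxHeartbeats 4000000
open Finset
open scoped Classical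

namespace Pool.Agent.Results.MP_f1799f_co.TripartitePieces
open Pool.Agent.TH773.Turan34
open Pool.Agent.Y47.BU

/-- The number of labelled induced copies of the 3-graph `F` in `H`: the injections `f` of the
vertices of `F` such that `{u, v, w}` is an edge of `F` if and only if `{f u, f v, f w}` is an edge
of `H`. -/
noncomputable def indCopies {α : Type} [Fintype α] (F : Finset (Finset α)) {n : ℕ}
    (H : Finset (Finset (Fin n))) : ℕ :=
  ((univ : Finset (α → Fin n)).filter fun f => Function.Injective f ∧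
    ∀ u v w : α, u ≠ v → u ≠ w → v ≠ w →
      (({u, v, w} : Finset α) ∈ F ↔ ({f u, f v, f w} : Finset (Fin n)) ∈ H)).card

/-- The 3-graph `U_τ(t)` (`τ = 0, 1, 2`) on three classes of `t` vertices: the triples which meet
all three classes; for `τ ≥ 1` also the triples with two vertices in the class `0` and one in the
class `1`; for `τ = 2` also those with two vertices in the class `1` and one in the class `2`. -/
noncomputable def piece (τ t : ℕ) : Finset (Finset (Fin 3 × Fin t)) :=
  univ.filter fun e => e.card = 3 ∧ ((∀ k : Fin 3, (e.filter fun x => x.1 = k).card = 1) ∨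
    (1 ≤ τ ∧ (e.filter fun x => x.1 = 0).card = 2 ∧ (e.filter fun x => x.1 = 1).card = 1) ∨
    (τ = 2 ∧ (e.filter fun x => x.1 = 1).card = 2 ∧ (e.filter fun x => x.1 = 2).card = 1))

/-- The cone over the graph `G`: its edges are the triples of the apex `none` and the two ends of
an edge of `G`. -/
noncomputable def cone {α : Type} [Fintype α] (G : SimpleGraph α) : Finset (Finset (Option α)) :=
  univ.filter fun e => ∃ a b, G.Adj a b ∧ e = {none, some a, some b}

/-- The graph with `s` vertices joined to all vertices (also to each other) and `t` further pairwise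
non-adjacent vertices. For `s = 2` it is the book `K_{1,1,t}`. -/
def split (s t : ℕ) : SimpleGraph (Fin s ⊕ Fin t) where
  Adj a b := a ≠ b ∧ (a.isLeft = true ∨ b.isLeft = true)
  symm := ⟨fun _ _ h => ⟨h.1.symm, h.2.symm⟩⟩
  loopless := ⟨fun _ h => h.1 rfl⟩

/-- `H` has at most `δ n^k` labelled induced copies of `F`, where `k` is the number of vertices
of `F`. -/
def Few {α : Type} [Fintype α] (F : Finset (Finset α)) {n : ℕ} (H : Finset (Finset (Fin n)))
    (δ : ℝ) : Prop := (indCopies F H : ℝ) ≤ δ * (n : ℝ) ^ Fintype.card α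

/-- The condition `P` (with a small parameter `δ`) forces Turán's bound and stability for
`K_4^3`-free 3-graphs. -/
def Forces (P : ∀ n : ℕ, Finset (Finset (Fin n)) → ℝ → Prop) : Prop :=
  ∀ ε : ℝ, 0 < ε → ∃ δ : ℝ, 0 < δ ∧ ∃ n0 : ℕ, ∀ n, n0 ≤ n → ∀ H : Finset (Finset (Fin n)),
    (∀ e ∈ H, e.card = 3) → K43Free H → P n H δ →
    (H.card : ℝ) ≤ (5 / 9 + ε) * (n.choose 3 : ℝ) ∧ ∃ g : Fin n → Fin 3,
      ((symmDiff H (turan g)).card : ℝ) ≤
        1161216000 * (5 / 54 * (n : ℝ) ^ 3 - H.card) + ε * (n : ℝ) ^ 3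

/-! ## Sets of three vertices -/

theorem set_eq {α : Type} [DecidableEq α] (a b c : α) : (@insert _ _ (@Finset.instInsert _
    fun x y => Classical.propDecidable (x = y)) a (@insert _ _ (@Finset.instInsert _
    fun x y => Classical.propDecidable (x = y)) b {c}) : Finset α) = {a, b, c} := by
  ext x
  simp only [Finset.mem_insert, Finset.mem_singleton]

theorem card3 {α : Type} [DecidableEq α] {a b c : α} (h1 : a ≠ b) (h2 : a ≠ c) (h3 : b ≠ c) :
    ({a, b, c} : Finset α).card = 3 := by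
  rw [card_insert_of_notMem, card_insert_of_notMem, card_singleton]
  · simpa using h3
  · simpa using ⟨h1, h2⟩

theorem cnt3 {α : Type} [DecidableEq α] {a b c : α} (h1 : a ≠ b) (h2 : a ≠ c) (h3 : b ≠ c)
    (P : α → Prop) [DecidablePred P] : (({a, b, c} : Finset α).filter P).card =
      (if P a then 1 else 0) + (if P b then 1 else 0) + (if P c then 1 else 0) := by
  rw [card_filter, sum_insert (by simpa using ⟨h1, h2⟩), sum_insert (by simpa using h3),
    sum_singleton, add_assoc]

theorem pat_iff : ∀ (τ : Fin 3) (p q r : Fin 3),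
    ((∀ k : Fin 3, ((if p = k then 1 else 0) + (if q = k then 1 else 0) +
        (if r = k then 1 else 0) : ℕ) = 1) ∨
      (1 ≤ τ.val ∧ ((if p = 0 then 1 else 0) + (if q = 0 then 1 else 0) +
        (if r = 0 then 1 else 0) : ℕ) = 2 ∧ ((if p = 1 then 1 else 0) + (if q = 1 then 1 else 0) +
        (if r = 1 then 1 else 0) : ℕ) = 1) ∨
      (τ.val = 2 ∧ ((if p = 1 then 1 else 0) + (if q = 1 then 1 else 0) +
        (if r = 1 then 1 else 0) : ℕ) = 2 ∧ ((if p = 2 then 1 else 0) + (if q = 2 then 1 else 0) +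
        (if r = 2 then 1 else 0) : ℕ) = 1)) ↔ patN τ p q r = 1 := by
  decide +kernel

theorem mem_piece {τ t : ℕ} (hτ : τ < 3) {u v w : Fin 3 × Fin t} (h1 : u ≠ v) (h2 : u ≠ w)
    (h3 : v ≠ w) : ({u, v, w} : Finset (Fin 3 × Fin t)) ∈ piece τ t ↔
      patN τ u.1 v.1 w.1 = 1 := by
  unfold piece
  rw [mem_filter, card3 h1 h2 h3]
  simp only [mem_univ, true_and, cnt3 h1 h2 h3]
  exact pat_iff ⟨τ, hτ⟩ u.1 v.1 w.1

/-! ## Copies -/

/-- the set of copies -/
noncomputable def copies {α : Type} [Fintype α] (F : Finset (Finset α)) {n : ℕ}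
    (H : Finset (Finset (Fin n))) : Finset (α → Fin n) :=
  univ.filter fun f => Function.Injective f ∧
    ∀ u v w : α, u ≠ v → u ≠ w → v ≠ w →
      (({u, v, w} : Finset α) ∈ F ↔ ({f u, f v, f w} : Finset (Fin n)) ∈ H)

theorem mem_copies {α : Type} [Fintype α] {F : Finset (Finset α)} {n : ℕ}
    {H : Finset (Finset (Fin n))} {f : α → Fin n} : f ∈ copies F H ↔ Function.Injective f ∧
    ∀ u v w : α, u ≠ v → u ≠ w → v ≠ w →
      (({u, v, w} : Finset α) ∈ F ↔ ({f u, f v, f w} : Finset (Fin n)) ∈ H) := by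
  unfold copies
  rw [mem_filter]
  simp only [mem_univ, true_and]

theorem sub_copies {α β : Type} [Fintype α] [Fintype β] {F : Finset (Finset α)}
    {G : Finset (Finset β)} (ι : α → β) (hι : Function.Injective ι)
    (h : ∀ u v w : α, u ≠ v → u ≠ w → v ≠ w →
      (({u, v, w} : Finset α) ∈ F ↔ ({ι u, ι v, ι w} : Finset β) ∈ G)) {n : ℕ}
    (H : Finset (Finset (Fin n))) : indCopies G H ≤
      indCopies F H * n ^ (Fintype.card β - Fintype.card α) := by
  have h1 := pull (V := Fin n) ι hι (copies G H) (copies F H) (fun f hf => by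
    obtain ⟨h2, h3⟩ := mem_copies.mp hf
    refine mem_copies.mpr ⟨h2.comp hι, fun u v w a b c => ?_⟩
    rw [h u v w a b c]
    exact h3 (ι u) (ι v) (ι w) (hι.ne a) (hι.ne b) (hι.ne c))
  rw [Fintype.card_fin] at h1
  exact h1

theorem few_sub {α β : Type} [Fintype α] [Fintype β] {F : Finset (Finset α)}
    {G : Finset (Finset β)} (ι : α → β) (hι : Function.Injective ι)
    (h : ∀ u v w : α, u ≠ v → u ≠ w → v ≠ w →
      (({u, v, w} : Finset α) ∈ F ↔ ({ι u, ι v, ι w} : Finset β) ∈ G)) {n : ℕ}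
    {H : Finset (Finset (Fin n))} {δ : ℝ} (hF : Few F H δ) : Few G H δ := by
  unfold Few at *
  have h1 := sub_copies ι hι h H
  have h2 : (indCopies G H : ℝ) ≤ (indCopies F H : ℝ) *
      (n : ℝ) ^ (Fintype.card β - Fintype.card α) := by exact_mod_cast h1
  have h3 := Fintype.card_le_of_injective ι hι
  calc (indCopies G H : ℝ) ≤ (indCopies F H : ℝ) *
        (n : ℝ) ^ (Fintype.card β - Fintype.card α) := h2
    _ ≤ (δ * (n : ℝ) ^ Fintype.card α) * (n : ℝ) ^ (Fintype.card β - Fintype.card α) :=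
        mul_le_mul_of_nonneg_right hF (by positivity)
    _ = δ * (n : ℝ) ^ Fintype.card β := by
        rw [mul_assoc, ← pow_add]
        congr 2
        omega

theorem zero_sub {α β : Type} [Fintype α] [Fintype β] {F : Finset (Finset α)}
    {G : Finset (Finset β)} (ι : α → β) (hι : Function.Injective ι)
    (h : ∀ u v w : α, u ≠ v → u ≠ w → v ≠ w →
      (({u, v, w} : Finset α) ∈ F ↔ ({ι u, ι v, ι w} : Finset β) ∈ G)) {n : ℕ}
    {H : Finset (Finset (Fin n))} (hF : indCopies F H = 0) : indCopies G H = 0 := by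
  have h1 := sub_copies ι hι h H
  rw [hF, Nat.zero_mul] at h1
  exact Nat.le_zero.mp h1

/-! ## The three tripartite 3-graphs -/

theorem isU_sub {t n : ℕ} (H : Finset (Finset (Fin n))) :
    (sS (IsU t (Fin n) (Pool.Agent.H122R2.N6.tri H))).card ≤
      ∑ τ : Fin 3, indCopies (piece τ t) H := by
  refine (card_le_card (t := (univ : Finset (Fin 3)).biUnion fun τ => copies (piece τ t) H)
    ?_).trans card_biUnion_le
  intro z hz
  obtain ⟨h1, τ, hτ, h2⟩ := mem_sS.mp hz
  refine mem_biUnion.mpr ⟨⟨τ, hτ⟩, mem_univ _, mem_copies.mpr ⟨h1, fun u v w a b c => ?_⟩⟩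
  rw [set_eq, mem_piece hτ a b c, ← h2 u v w a b c, tri_mem]

theorem forces_pieces (t : ℕ) : Forces fun _ H δ => ∀ τ : Fin 3, Few (piece τ t) H δ := by
  intro ε hε
  obtain ⟨K, n0, h⟩ := mainG 1 (S := IsU t) (fun m hm => by
    obtain ⟨tr, ht⟩ := okU m hm
    exact ramU t tr ht) hε
  refine ⟨1 / (3 * ((K : ℝ) + 1)), by positivity, n0, fun n hn H h3 hK hP => ?_⟩
  refine h n hn H h3 hK ?_
  have h1 := isU_sub (t := t) H
  set N := (sS (IsU t (Fin n) (Pool.Agent.H122R2.N6.tri H))).card with hN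
  set e := Fintype.card (Fin 3 × Fin t) with he
  have h2 : (N : ℝ) ≤ ∑ τ : Fin 3, (indCopies (piece τ t) H : ℝ) := by exact_mod_cast h1
  have h4 : (N : ℝ) ≤ 3 * (1 / (3 * ((K : ℝ) + 1)) * (n : ℝ) ^ e) := by
    refine h2.trans ?_
    rw [Fin.sum_univ_three]
    have a0 := hP 0
    have a1 := hP 1
    have a2 := hP 2
    unfold Few at a0 a1 a2
    linarith
  have h5 : (3 : ℝ) * (1 / (3 * ((K : ℝ) + 1)) * (n : ℝ) ^ e) = (n : ℝ) ^ e / ((K : ℝ) + 1) := by
    field_simp
  rw [h5, le_div_iff₀ (by positivity)] at h4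
  have h6 : (K : ℝ) * N ≤ (n : ℝ) ^ e := by
    have : (0 : ℝ) ≤ (N : ℝ) := Nat.cast_nonneg _
    nlinarith
  exact_mod_cast h6

/-! ## Cones -/

theorem mem_cone0 {α : Type} [Fintype α] {G : SimpleGraph α} {a b : α} (hab : a ≠ b) :
    ({none, some a, some b} : Finset (Option α)) ∈ cone G ↔ G.Adj a b := by
  unfold cone
  rw [mem_filter]
  simp only [mem_univ, true_and]
  constructor
  · rintro ⟨c, d, h1, h2⟩
    have ha : some a ∈ ({none, some c, some d} : Finset (Option α)) := by
      rw [← h2]; simp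
    have hb : some b ∈ ({none, some c, some d} : Finset (Option α)) := by
      rw [← h2]; simp
    simp only [mem_insert, mem_singleton, Option.some.injEq] at ha hb
    rcases ha with ha | ha | ha
    · exact absurd ha (Option.some_ne_none _)
    · rcases hb with hb | hb | hb
      · exact absurd hb (Option.some_ne_none _)
      · exact absurd (ha.trans hb.symm) hab
      · rw [ha, hb]; exact h1
    · rcases hb with hb | hb | hb
      · exact absurd hb (Option.some_ne_none _)
      · rw [ha, hb]; exact h1.symm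
      · exact absurd (ha.trans hb.symm) hab
  · intro h
    exact ⟨a, b, h, rfl⟩

theorem mem_cone3 {α : Type} [Fintype α] {G : SimpleGraph α} {a b c : α} :
    ({some a, some b, some c} : Finset (Option α)) ∉ cone G := by
  unfold cone
  rw [mem_filter]
  rintro ⟨-, x, y, -, h⟩
  have : (none : Option α) ∈ ({some a, some b, some c} : Finset (Option α)) := by
    rw [h]; simp
  simp at this

/-- membership in the cone, by classes -/
theorem mem_cone {α : Type} [Fintype α] {G : SimpleGraph α} (f : Option α → Option α →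
    Option α → Prop) (h0 : ∀ a b, a ≠ b → (f none (some a) (some b) ↔ G.Adj a b))
    (h1 : ∀ a b, a ≠ b → (f (some a) none (some b) ↔ G.Adj a b))
    (h2 : ∀ a b, a ≠ b → (f (some a) (some b) none ↔ G.Adj a b))
    (h3 : ∀ a b c, a ≠ b → a ≠ c → b ≠ c → ¬ f (some a) (some b) (some c))
    {u v w : Option α} (huv : u ≠ v) (huw : u ≠ w) (hvw : v ≠ w) :
    ({u, v, w} : Finset (Option α)) ∈ cone G ↔ f u v w := by
  rcases u with _ | u <;> rcases v with _ | v <;> rcases w with _ | w
  · exact absurd rfl huv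
  · exact absurd rfl huv
  · exact absurd rfl huw
  · have e : v ≠ w := fun e => hvw (congrArg some e)
    rw [mem_cone0 e, h0 v w e]
  · exact absurd rfl hvw
  · have e : u ≠ w := fun e => huw (congrArg some e)
    rw [h1 u w e, ← mem_cone0 (G := G) e, Finset.insert_comm]
  · have e : u ≠ v := fun e => huv (congrArg some e)
    rw [h2 u v e, ← mem_cone0 (G := G) e]
    have : ({some u, some v, none} : Finset (Option α)) = {none, some u, some v} := by
      ext x
      simp only [mem_insert, mem_singleton]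
      tauto
    rw [this]
  · have e1 : u ≠ v := fun e => huv (congrArg some e)
    have e2 : u ≠ w := fun e => huw (congrArg some e)
    have e3 : v ≠ w := fun e => hvw (congrArg some e)
    exact ⟨fun h => absurd h mem_cone3, fun h => absurd h (h3 u v w e1 e2 e3)⟩

theorem mem_cone' {α : Type} [Fintype α] {G : SimpleGraph α} (f : Option α → Option α →
    Option α → Prop) (h0 : ∀ a b, a ≠ b → (f none (some a) (some b) ↔ G.Adj a b))
    (h1 : ∀ a b, a ≠ b → (f (some a) none (some b) ↔ G.Adj a b))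
    (h2 : ∀ a b, a ≠ b → (f (some a) (some b) none ↔ G.Adj a b))
    (h3 : ∀ a b c, a ≠ b → a ≠ c → b ≠ c → ¬ f (some a) (some b) (some c))
    {u v w : Option α} (huv : u ≠ v) (huw : u ≠ w) (hvw : v ≠ w) (d : DecidableEq (Option α)) :
    (@insert _ _ (@Finset.instInsert _ d) u (@insert _ _ (@Finset.instInsert _ d) v {w}) :
      Finset (Option α)) ∈ cone G ↔ f u v w := by
  refine (Iff.of_eq (congrArg (· ∈ cone G) ?_)).trans (mem_cone f h0 h1 h2 h3 huv huw hvw)
  ext x
  simp only [Finset.mem_insert, Finset.mem_singleton]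

theorem nb (a b : ℕ) : Nat.beq a b = decide (a = b) := by
  rw [Bool.eq_iff_iff, decide_eq_true_iff]
  exact ⟨Nat.eq_of_beq_eq_true, fun h => by rw [h]; exact Nat.beq_refl b⟩

theorem nl (a b : ℕ) : Nat.ble a b = decide (a ≤ b) := by
  rw [Bool.eq_iff_iff, decide_eq_true_iff]
  exact ⟨Nat.le_of_ble_eq_true, Nat.ble_eq_true_of_le⟩

/-- the value of a triple of the cone over a complete bipartite graph -/
def fB {s t : ℕ} : Option (Fin s ⊕ Fin t) → Option (Fin s ⊕ Fin t) → Option (Fin s ⊕ Fin t) → Prop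
  | none, some (.inl _), some (.inr _) => True
  | none, some (.inr _), some (.inl _) => True
  | some (.inl _), none, some (.inr _) => True
  | some (.inr _), none, some (.inl _) => True
  | some (.inl _), some (.inr _), none => True
  | some (.inr _), some (.inl _), none => True
  | _, _, _ => False

/-- the value of a triple of the cone over a split graph -/
def fS {s t : ℕ} : Option (Fin s ⊕ Fin t) → Option (Fin s ⊕ Fin t) → Option (Fin s ⊕ Fin t) → Prop
  | none, some (.inl _), some _ => True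
  | none, some _, some (.inl _) => True
  | some (.inl _), none, some _ => True
  | some _, none, some (.inl _) => True
  | some (.inl _), some _, none => True
  | some _, some (.inl _), none => True
  | _, _, _ => False

theorem mem_coneB {s t : ℕ} {u v w : Option (Fin s ⊕ Fin t)} (h1 : u ≠ v) (h2 : u ≠ w)
    (h3 : v ≠ w) : ({u, v, w} : Finset (Option (Fin s ⊕ Fin t))) ∈
      cone (completeBipartiteGraph (Fin s) (Fin t)) ↔ fB u v w := by
  refine mem_cone' fB ?_ ?_ ?_ ?_ h1 h2 h3 _
  · rintro (a | a) (b | b) - <;> simp [fB, completeBipartiteGraph]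
  · rintro (a | a) (b | b) - <;> simp [fB, completeBipartiteGraph]
  · rintro (a | a) (b | b) - <;> simp [fB, completeBipartiteGraph]
  · rintro (a | a) (b | b) (c | c) - - - <;> simp [fB]

theorem mem_coneS {s t : ℕ} {u v w : Option (Fin s ⊕ Fin t)} (h1 : u ≠ v) (h2 : u ≠ w)
    (h3 : v ≠ w) : ({u, v, w} : Finset (Option (Fin s ⊕ Fin t))) ∈ cone (split s t) ↔
      fS u v w := by
  refine mem_cone' fS ?_ ?_ ?_ ?_ h1 h2 h3 _
  · rintro (a | a) (b | b) h <;> simp_all [fS, split]
  · rintro (a | a) (b | b) h <;> simp_all [fS, split]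
  · rintro (a | a) (b | b) h <;> simp_all [fS, split]
  · rintro (a | a) (b | b) (c | c) - - - <;> simp [fS]

section
variable {s t : ℕ}

/-- the cone over the complete bipartite graph in `piece 0` and `piece 1` -/
def ιB : Option (Fin s ⊕ Fin t) → Fin 3 × Fin (s + t + 1)
  | none => (0, ⟨0, by omega⟩)
  | some (.inl a) => (1, ⟨a, by omega⟩)
  | some (.inr a) => (2, ⟨a, by omega⟩)

/-- the cone over the split graph in `piece 1` and `piece 2` -/
def ιS : Option (Fin s ⊕ Fin t) → Fin 3 × Fin (s + t + 1)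
  | none => (1, ⟨0, by omega⟩)
  | some (.inl a) => (0, ⟨a, by omega⟩)
  | some (.inr a) => (2, ⟨a, by omega⟩)

theorem ιB_inj : Function.Injective (ιB (s := s) (t := t)) := by
  rintro (_ | a | a) (_ | b | b) h <;> simp_all [ιB, Fin.ext_iff]

theorem ιS_inj : Function.Injective (ιS (s := s) (t := t)) := by
  rintro (_ | a | a) (_ | b | b) h <;> simp_all [ιS, Fin.ext_iff]

theorem ιB_fits {τ : ℕ} (hτ : τ = 0 ∨ τ = 1) (u v w : Option (Fin s ⊕ Fin t)) (h1 : u ≠ v)
    (h2 : u ≠ w) (h3 : v ≠ w) : ({u, v, w} : Finset (Option (Fin s ⊕ Fin t))) ∈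
      cone (completeBipartiteGraph (Fin s) (Fin t)) ↔
        ({ιB u, ιB v, ιB w} : Finset (Fin 3 × Fin (s + t + 1))) ∈ piece τ (s + t + 1) := by
  rw [mem_coneB h1 h2 h3, mem_piece (by omega) (ιB_inj.ne h1) (ιB_inj.ne h2) (ιB_inj.ne h3)]
  rcases hτ with rfl | rfl <;> rcases u with _ | a | a <;> rcases v with _ | b | b <;>
    rcases w with _ | c | c <;> simp_all [fB, ιB, patN, arcN, nb, nl]

theorem ιS_fits {τ : ℕ} (hτ : τ = 1 ∨ τ = 2) (u v w : Option (Fin s ⊕ Fin t)) (h1 : u ≠ v)
    (h2 : u ≠ w) (h3 : v ≠ w) : ({u, v, w} : Finset (Option (Fin s ⊕ Fin t))) ∈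
      cone (split s t) ↔
        ({ιS u, ιS v, ιS w} : Finset (Fin 3 × Fin (s + t + 1))) ∈ piece τ (s + t + 1) := by
  rw [mem_coneS h1 h2 h3, mem_piece (by omega) (ιS_inj.ne h1) (ιS_inj.ne h2) (ιS_inj.ne h3)]
  rcases hτ with rfl | rfl <;> rcases u with _ | a | a <;> rcases v with _ | b | b <;>
    rcases w with _ | c | c <;> simp_all [fS, ιS, patN, arcN, nb, nl]

end

theorem forces_cones (s t : ℕ) : Forces fun _ H δ =>
    Few (cone (completeBipartiteGraph (Fin s) (Fin t))) H δ ∧ Few (cone (split s t)) H δ := by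
  intro ε hε
  obtain ⟨δ, hδ, n0, h⟩ := forces_pieces (s + t + 1) ε hε
  refine ⟨δ, hδ, n0, fun n hn H h3 hK hP => h n hn H h3 hK fun τ => ?_⟩
  have hτ : τ = 0 ∨ τ = 1 ∨ τ = 2 := by
    fin_cases τ <;> simp
  rcases hτ with rfl | rfl | rfl
  · refine few_sub ιB ιB_inj (fun u v w a b c => ?_) hP.1
    rw [set_eq, set_eq]
    exact ιB_fits (Or.inl rfl) u v w a b c
  · refine few_sub ιB ιB_inj (fun u v w a b c => ?_) hP.1
    rw [set_eq, set_eq]
    exact ιB_fits (Or.inr rfl) u v w a b c
  · refine few_sub ιS ιS_inj (fun u v w a b c => ?_) hP.2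
    rw [set_eq, set_eq]
    exact ιS_fits (Or.inr rfl) u v w a b c

/-! ## One excluded 3-graph -/

theorem bA : ∀ t ∈ bookA, t.card = 3 := by decide +kernel

theorem bT : ∀ a b c : Fin 4, a < b → b < c →
    (a.val, b.val, c.val, if ({a, b, c} : Finset (Fin 4)) ∈ bookA then 1 else 0) ∈ PZ.T := by
  decide +kernel

theorem bR : ∀ a ∈ ({1} : Finset (Fin 4)), ∀ b : Fin 4, b ≠ a → (a.val, b.val, 0) ∈ PZ.R := by
  decide +kernel

theorem tA : ∀ t ∈ twelve, t.card = 3 := by decide +kernel

theorem tT : ∀ a b c : Fin 6, a < b → b < c →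
    (a.val, b.val, c.val, if ({a, b, c} : Finset (Fin 6)) ∈ twelve then 1 else 0) ∈ PT.T := by
  decide +kernel

/-- the classes of the vertices of the cone over a book -/
def clB {t : ℕ} : Option (Fin 2 ⊕ Fin t) → Fin 4
  | none => 0
  | some (.inl a) => if a = 0 then 2 else 3
  | some (.inr _) => 1

theorem clB_X {t : ℕ} (u v : Option (Fin 2 ⊕ Fin t)) (huv : u ≠ v) (h : clB u = clB v) :
    clB u ∈ ({1} : Finset (Fin 4)) := by
  rcases u with _ | a | a <;> rcases v with _ | b | b <;> simp only [clB] at h ⊢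
  · exact absurd rfl huv
  · revert h; fin_cases b <;> decide
  · revert h; decide
  · revert h; fin_cases a <;> decide
  · fin_cases a <;> fin_cases b <;> first | exact absurd rfl huv | (revert h; decide)
  · revert h; fin_cases a <;> decide
  · revert h; decide
  · revert h; fin_cases b <;> decide
  · decide

theorem clB_fits {t : ℕ} (u v w : Option (Fin 2 ⊕ Fin t)) (h1 : u ≠ v) (h2 : u ≠ w)
    (h3 : v ≠ w) : ({u, v, w} : Finset (Option (Fin 2 ⊕ Fin t))) ∈ cone (split 2 t) ↔
      ({clB u, clB v, clB w} : Finset (Fin 4)) ∈ bookA := by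
  rw [mem_coneS h1 h2 h3, bookA_iff]
  rcases u with _ | a | a <;> rcases v with _ | b | b <;> rcases w with _ | c | c <;>
    (try (rcases f2 a with rfl | rfl)) <;> (try (rcases f2 b with rfl | rfl)) <;>
    (try (rcases f2 c with rfl | rfl)) <;>
    first
      | exact absurd rfl h1
      | exact absurd rfl h2
      | exact absurd rfl h3
      | simp [fS, clB]

theorem forces_book (t : ℕ) : Forces fun _ H δ => Few (cone (split 2 t)) H δ := by
  intro ε hε
  refine ind_main 0 PZ okZ (A := bookA) (X := ({1} : Finset (Fin 4))) (Nat.zero_lt_succ 3) bA bT bR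
    (fun x => clB x) clB_X ?_ hε
  intro u v w h1 h2 h3
  rw [set_eq]
  exact clB_fits u v w h1 h2 h3

theorem forces_twelve : Forces fun _ H δ => Few (piece 2 2) H δ := by
  intro ε hε
  refine ind_main 1 PT okT (A := twelve) (X := (∅ : Finset (Fin 6))) (Nat.zero_lt_succ 5) tA tT
    (fun a ha => absurd ha (notMem_empty _)) (fun x => clT x)
    (fun u v h e => absurd e (clT_inj u v h)) ?_ hε
  intro u v w h1 h2 h3
  rw [set_eq, mem_piece (by norm_num) h1 h2 h3]
  exact clT_fits u v w h1 h2 h3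

/-! ## Turán's construction -/

theorem coreS : ∀ a b c d e : Fin 3, ¬ (Pool.Agent.TH773.ST.Rf a b c = 1 ∧
    Pool.Agent.TH773.ST.Rf a b d = 1 ∧ Pool.Agent.TH773.ST.Rf a b e = 1 ∧
    Pool.Agent.TH773.ST.Rf a c d = 1 ∧ Pool.Agent.TH773.ST.Rf a c e = 1 ∧
    Pool.Agent.TH773.ST.Rf a d e ≠ 1 ∧ Pool.Agent.TH773.ST.Rf b c d ≠ 1 ∧
    Pool.Agent.TH773.ST.Rf b c e ≠ 1 ∧ Pool.Agent.TH773.ST.Rf b d e ≠ 1 ∧
    Pool.Agent.TH773.ST.Rf c d e ≠ 1) := by
  decide +kernel

theorem coreB : ∀ a b c d e : Fin 3, ¬ (Pool.Agent.TH773.ST.Rf a b c ≠ 1 ∧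
    Pool.Agent.TH773.ST.Rf a b d = 1 ∧ Pool.Agent.TH773.ST.Rf a b e = 1 ∧
    Pool.Agent.TH773.ST.Rf a c d = 1 ∧ Pool.Agent.TH773.ST.Rf a c e = 1 ∧
    Pool.Agent.TH773.ST.Rf a d e ≠ 1 ∧ Pool.Agent.TH773.ST.Rf b c d ≠ 1 ∧
    Pool.Agent.TH773.ST.Rf b c e ≠ 1 ∧ Pool.Agent.TH773.ST.Rf b d e ≠ 1 ∧
    Pool.Agent.TH773.ST.Rf c d e ≠ 1) := by
  decide +kernel

section
variable {n : ℕ} (g : Fin n → Fin 3) {a b c d e : Fin n}

/-- no induced cone over a diamond (apex `a`, common edge `b c`) in Turán's construction -/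
theorem no_coneS (hab : a ≠ b) (hac : a ≠ c)
    (had : a ≠ d) (hae : a ≠ e) (hbc : b ≠ c) (hbd : b ≠ d) (hbe : b ≠ e) (hcd : c ≠ d)
    (hce : c ≠ e) (hde : d ≠ e)
    (h : {a, b, c} ∈ turan g ∧ {a, b, d} ∈ turan g ∧ {a, b, e} ∈ turan g ∧ {a, c, d} ∈ turan g ∧
      {a, c, e} ∈ turan g ∧ {a, d, e} ∉ turan g ∧ {b, c, d} ∉ turan g ∧ {b, c, e} ∉ turan g ∧
      {b, d, e} ∉ turan g ∧ {c, d, e} ∉ turan g) : False := by
  rw [Pool.Agent.TH773.ST.mem_turan hab hac hbc, Pool.Agent.TH773.ST.mem_turan hab had hbd,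
    Pool.Agent.TH773.ST.mem_turan hab hae hbe, Pool.Agent.TH773.ST.mem_turan hac had hcd,
    Pool.Agent.TH773.ST.mem_turan hac hae hce, Pool.Agent.TH773.ST.mem_turan had hae hde,
    Pool.Agent.TH773.ST.mem_turan hbc hbd hcd, Pool.Agent.TH773.ST.mem_turan hbc hbe hce,
    Pool.Agent.TH773.ST.mem_turan hbd hbe hde, Pool.Agent.TH773.ST.mem_turan hcd hce hde] at h
  exact coreS _ _ _ _ _ h

/-- no induced cone over a cycle of length four (apex `a`, sides `b c` and `d e`) in Turán's
construction -/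
theorem no_coneB (hab : a ≠ b) (hac : a ≠ c)
    (had : a ≠ d) (hae : a ≠ e) (hbc : b ≠ c) (hbd : b ≠ d) (hbe : b ≠ e) (hcd : c ≠ d)
    (hce : c ≠ e) (hde : d ≠ e)
    (h : {a, b, c} ∉ turan g ∧ {a, b, d} ∈ turan g ∧ {a, b, e} ∈ turan g ∧ {a, c, d} ∈ turan g ∧
      {a, c, e} ∈ turan g ∧ {a, d, e} ∉ turan g ∧ {b, c, d} ∉ turan g ∧ {b, c, e} ∉ turan g ∧
      {b, d, e} ∉ turan g ∧ {c, d, e} ∉ turan g) : False := by
  rw [Pool.Agent.TH773.ST.mem_turan hab hac hbc, Pool.Agent.TH773.ST.mem_turan hab had hbd,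
    Pool.Agent.TH773.ST.mem_turan hab hae hbe, Pool.Agent.TH773.ST.mem_turan hac had hcd,
    Pool.Agent.TH773.ST.mem_turan hac hae hce, Pool.Agent.TH773.ST.mem_turan had hae hde,
    Pool.Agent.TH773.ST.mem_turan hbc hbd hcd, Pool.Agent.TH773.ST.mem_turan hbc hbe hce,
    Pool.Agent.TH773.ST.mem_turan hbd hbe hde, Pool.Agent.TH773.ST.mem_turan hcd hce hde] at h
  exact coreB _ _ _ _ _ h

end

theorem indCopies_zero {α : Type} [Fintype α] {F : Finset (Finset α)} {n : ℕ}
    {H : Finset (Finset (Fin n))} (h : ∀ f : α → Fin n, Function.Injective f →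
      (∀ u v w : α, u ≠ v → u ≠ w → v ≠ w →
      (({u, v, w} : Finset α) ∈ F ↔ ({f u, f v, f w} : Finset (Fin n)) ∈ H)) → False) :
    indCopies F H = 0 := by
  unfold indCopies
  rw [card_eq_zero, filter_eq_empty_iff]
  rintro f - ⟨hf, h2⟩
  exact h f hf h2

section
variable {s t n : ℕ} (hs : 2 ≤ s) (ht : 2 ≤ t) (g : Fin n → Fin 3)
include hs ht

theorem coneB_turan : indCopies (cone (completeBipartiteGraph (Fin s) (Fin t))) (turan g) = 0 := by
  refine indCopies_zero fun f hf h => ?_
  have key : ∀ u v w : Option (Fin s ⊕ Fin t), u ≠ v → u ≠ w → v ≠ w →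
      (({f u, f v, f w} : Finset (Fin n)) ∈ turan g ↔ fB u v w) := by
    intro u v w h1 h2 h3
    rw [← h u v w h1 h2 h3, set_eq, mem_coneB h1 h2 h3]
  let l0 : Fin s := ⟨0, by omega⟩
  let l1 : Fin s := ⟨1, by omega⟩
  let r0 : Fin t := ⟨0, by omega⟩
  let r1 : Fin t := ⟨1, by omega⟩
  have hl : l0 ≠ l1 := fun e => by have := congrArg Fin.val e; simp [l0, l1] at this
  have hr : r0 ≠ r1 := fun e => by have := congrArg Fin.val e; simp [r0, r1] at this
  have n1 : (none : Option (Fin s ⊕ Fin t)) ≠ some (.inl l0) := fun e => by simp at e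
  have n2 : (none : Option (Fin s ⊕ Fin t)) ≠ some (.inl l1) := fun e => by simp at e
  have n3 : (none : Option (Fin s ⊕ Fin t)) ≠ some (.inr r0) := fun e => by simp at e
  have n4 : (none : Option (Fin s ⊕ Fin t)) ≠ some (.inr r1) := fun e => by simp at e
  have m1 : (some (.inl l0) : Option (Fin s ⊕ Fin t)) ≠ some (.inl l1) := fun e => by
    simp at e; exact hl e
  have m2 : (some (.inl l0) : Option (Fin s ⊕ Fin t)) ≠ some (.inr r0) := fun e => by simp at e
  have m3 : (some (.inl l0) : Option (Fin s ⊕ Fin t)) ≠ some (.inr r1) := fun e => by simp at e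
  have m4 : (some (.inl l1) : Option (Fin s ⊕ Fin t)) ≠ some (.inr r0) := fun e => by simp at e
  have m5 : (some (.inl l1) : Option (Fin s ⊕ Fin t)) ≠ some (.inr r1) := fun e => by simp at e
  have m6 : (some (.inr r0) : Option (Fin s ⊕ Fin t)) ≠ some (.inr r1) := fun e => by
    simp at e; exact hr e
  refine no_coneB g (hf.ne n1) (hf.ne n2) (hf.ne n3) (hf.ne n4) (hf.ne m1) (hf.ne m2)
    (hf.ne m3) (hf.ne m4) (hf.ne m5) (hf.ne m6) ?_
  rw [key _ _ _ n1 n2 m1, key _ _ _ n1 n3 m2, key _ _ _ n1 n4 m3, key _ _ _ n2 n3 m4,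
    key _ _ _ n2 n4 m5, key _ _ _ n3 n4 m6, key _ _ _ m1 m2 m4, key _ _ _ m1 m3 m5,
    key _ _ _ m2 m3 m6, key _ _ _ m4 m5 m6]
  simp [fB]

theorem coneS_turan : indCopies (cone (split s t)) (turan g) = 0 := by
  refine indCopies_zero fun f hf h => ?_
  have key : ∀ u v w : Option (Fin s ⊕ Fin t), u ≠ v → u ≠ w → v ≠ w →
      (({f u, f v, f w} : Finset (Fin n)) ∈ turan g ↔ fS u v w) := by
    intro u v w h1 h2 h3
    rw [← h u v w h1 h2 h3, set_eq, mem_coneS h1 h2 h3]
  let l0 : Fin s := ⟨0, by omega⟩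
  let l1 : Fin s := ⟨1, by omega⟩
  let r0 : Fin t := ⟨0, by omega⟩
  let r1 : Fin t := ⟨1, by omega⟩
  have hl : l0 ≠ l1 := fun e => by have := congrArg Fin.val e; simp [l0, l1] at this
  have hr : r0 ≠ r1 := fun e => by have := congrArg Fin.val e; simp [r0, r1] at this
  have n1 : (none : Option (Fin s ⊕ Fin t)) ≠ some (.inl l0) := fun e => by simp at e
  have n2 : (none : Option (Fin s ⊕ Fin t)) ≠ some (.inl l1) := fun e => by simp at e
  have n3 : (none : Option (Fin s ⊕ Fin t)) ≠ some (.inr r0) := fun e => by simp at e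
  have n4 : (none : Option (Fin s ⊕ Fin t)) ≠ some (.inr r1) := fun e => by simp at e
  have m1 : (some (.inl l0) : Option (Fin s ⊕ Fin t)) ≠ some (.inl l1) := fun e => by
    simp at e; exact hl e
  have m2 : (some (.inl l0) : Option (Fin s ⊕ Fin t)) ≠ some (.inr r0) := fun e => by simp at e
  have m3 : (some (.inl l0) : Option (Fin s ⊕ Fin t)) ≠ some (.inr r1) := fun e => by simp at e
  have m4 : (some (.inl l1) : Option (Fin s ⊕ Fin t)) ≠ some (.inr r0) := fun e => by simp at e
  have m5 : (some (.inl l1) : Option (Fin s ⊕ Fin t)) ≠ some (.inr r1) := fun e => by simp at e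
  have m6 : (some (.inr r0) : Option (Fin s ⊕ Fin t)) ≠ some (.inr r1) := fun e => by
    simp at e; exact hr e
  refine no_coneS g (hf.ne n1) (hf.ne n2) (hf.ne n3) (hf.ne n4) (hf.ne m1) (hf.ne m2)
    (hf.ne m3) (hf.ne m4) (hf.ne m5) (hf.ne m6) ?_
  rw [key _ _ _ n1 n2 m1, key _ _ _ n1 n3 m2, key _ _ _ n1 n4 m3, key _ _ _ n2 n3 m4,
    key _ _ _ n2 n4 m5, key _ _ _ n3 n4 m6, key _ _ _ m1 m2 m4, key _ _ _ m1 m3 m5,
    key _ _ _ m2 m3 m6, key _ _ _ m4 m5 m6]
  simp [fS]

end

theorem piece_turan {t n : ℕ} (ht : 2 ≤ t) (g : Fin n → Fin 3) (τ : Fin 3) :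
    indCopies (piece τ t) (turan g) = 0 := by
  refine indCopies_zero fun f hf h => ?_
  have key : ∀ u v w : Fin 3 × Fin t, u ≠ v → u ≠ w → v ≠ w →
      (({f u, f v, f w} : Finset (Fin n)) ∈ turan g ↔ patN τ u.1 v.1 w.1 = 1) := by
    intro u v w h1 h2 h3
    rw [← h u v w h1 h2 h3, set_eq, mem_piece τ.isLt h1 h2 h3]
  let r0 : Fin t := ⟨0, by omega⟩
  let r1 : Fin t := ⟨1, by omega⟩
  have hr : r0 ≠ r1 := fun e => by have := congrArg Fin.val e; simp [r0, r1] at this
  have nn : ∀ (a b : Fin 3) (x y : Fin t), a ≠ b → ((a, x) : Fin 3 × Fin t) ≠ (b, y) :=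
    fun a b x y h e => h (congrArg Prod.fst e)
  have mm : ∀ a : Fin 3, ((a, r0) : Fin 3 × Fin t) ≠ (a, r1) := fun a e =>
    hr (congrArg Prod.snd e)
  have hτ : τ = 0 ∨ τ = 1 ∨ τ = 2 := by
    fin_cases τ <;> simp
  have main : ∀ p q r : Fin 3, p ≠ q → p ≠ r → q ≠ r →
      ((patN τ p q q = 1 ∨ patN τ p q q ≠ 1) ∧ patN τ p q r = 1 ∧ patN τ p r r ≠ 1 ∧
        patN τ q q r ≠ 1 ∧ patN τ q r r ≠ 1) → False := by
    intro p q r hpq hpr hqr h1
    obtain ⟨h0, h2, h3, h4, h5⟩ := h1
    have n1 := nn p q r0 r0 hpq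
    have n2 := nn p q r0 r1 hpq
    have n3 := nn p r r0 r0 hpr
    have n4 := nn p r r0 r1 hpr
    have m1 := mm q
    have m2 := nn q r r0 r0 hqr
    have m3 := nn q r r0 r1 hqr
    have m4 := nn q r r1 r0 hqr
    have m5 := nn q r r1 r1 hqr
    have m6 := mm r
    rcases h0 with h0 | h0
    · refine no_coneS g (hf.ne n1) (hf.ne n2) (hf.ne n3) (hf.ne n4) (hf.ne m1) (hf.ne m2)
        (hf.ne m3) (hf.ne m4) (hf.ne m5) (hf.ne m6) ?_
      rw [key _ _ _ n1 n2 m1, key _ _ _ n1 n3 m2, key _ _ _ n1 n4 m3, key _ _ _ n2 n3 m4,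
        key _ _ _ n2 n4 m5, key _ _ _ n3 n4 m6, key _ _ _ m1 m2 m4, key _ _ _ m1 m3 m5,
        key _ _ _ m2 m3 m6, key _ _ _ m4 m5 m6]
      exact ⟨h0, h2, h2, h2, h2, h3, h4, h4, h5, h5⟩
    · refine no_coneB g (hf.ne n1) (hf.ne n2) (hf.ne n3) (hf.ne n4) (hf.ne m1) (hf.ne m2)
        (hf.ne m3) (hf.ne m4) (hf.ne m5) (hf.ne m6) ?_
      rw [key _ _ _ n1 n2 m1, key _ _ _ n1 n3 m2, key _ _ _ n1 n4 m3, key _ _ _ n2 n3 m4,
        key _ _ _ n2 n4 m5, key _ _ _ n3 n4 m6, key _ _ _ m1 m2 m4, key _ _ _ m1 m3 m5,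
        key _ _ _ m2 m3 m6, key _ _ _ m4 m5 m6]
      exact ⟨h0, h2, h2, h2, h2, h3, h4, h4, h5, h5⟩
  rcases hτ with rfl | rfl | rfl
  · exact main 0 1 2 (by decide) (by decide) (by decide) (by decide +kernel)
  · exact main 0 1 2 (by decide) (by decide) (by decide) (by decide +kernel)
  · exact main 1 0 2 (by decide) (by decide) (by decide) (by decide +kernel)

/-- For `K_4^3`-free 3-graphs, Turán's bound and stability follow from few induced copies of
`U_0(t)`, `U_1(t)` and `U_2(t)`, for every `t`; from few induced copies of the cone over `K_{s,t}`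
and of the cone over the split graph, for all `s` and `t`; from few induced copies of the cone over
the book `K_{1,1,t}` alone, for every `t`; and from few induced copies of `U_2(2)` alone. Turán's
construction is `K_4^3`-free and contains no induced copies of these 3-graphs (for `s, t ≥ 2`). -/
theorem result : (∀ t : ℕ, Forces fun _ H δ => ∀ τ : Fin 3, Few (piece τ t) H δ) ∧
    (∀ s t : ℕ, Forces fun _ H δ =>
      Few (cone (completeBipartiteGraph (Fin s) (Fin t))) H δ ∧ Few (cone (split s t)) H δ) ∧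
    (∀ t : ℕ, Forces fun _ H δ => Few (cone (split 2 t)) H δ) ∧
    (Forces fun _ H δ => Few (piece 2 2) H δ) ∧
    (∀ (n : ℕ) (g : Fin n → Fin 3), K43Free (turan g) ∧
      ∀ s t : ℕ, 2 ≤ s → 2 ≤ t → (∀ τ : Fin 3, indCopies (piece τ t) (turan g) = 0) ∧
        indCopies (cone (completeBipartiteGraph (Fin s) (Fin t))) (turan g) = 0 ∧
        indCopies (cone (split s t)) (turan g) = 0) :=
  ⟨forces_pieces, forces_cones, forces_book, forces_twelve, fun _ g =>
    ⟨Pool.Agent.TH773.ST.turan_free g, fun _ _ hs ht => ⟨piece_turan ht g, coneB_turan hs ht g,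
      coneS_turan hs ht g⟩⟩⟩

end Pool.Agent.Results.MP_f1799f_co.TripartitePieces
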